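import Pool.Agent.Y723.Z8.StmD

/-!
# Project Z8D (helper723), job Z8D-LC: the number of the integer points with `0 < |D8 t| ≤ V ^ 24`

Reduction to `0 < B < A` (`A`, `B` the larger and the smaller absolute value).  For `A > V` one of
`B`, `A - B`, `A ^ 2 - 2 A B - B ^ 2` is small; in each case the values of `B` for fixed `A` lie in
an interval of length at most `1526 V ^ 3 / A ^ 2`, and `A ≤ 2 V ^ 2`.
-/

set_option autoImplicit false

namespace Pool.Agent.Y37.Z8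

open Finset Pool.Agent.Y723.Z8

/-! ### counting -/

theorem card_diam {T : Finset ℕ} {L : ℕ} (h : ∀ x ∈ T, ∀ y ∈ T, x ≤ y → y - x ≤ L) :
    T.card ≤ L + 1 := by
  rcases T.eq_empty_or_nonempty with rfl | hT
  · simp
  · have h1 : T ⊆ Icc (T.min' hT) (T.min' hT + L) := by
      intro y hy
      rw [mem_Icc]
      have h2 := T.min'_le y hy
      have h3 := h _ (T.min'_mem hT) y hy h2
      omega
    refine (card_le_card h1).trans ?_
    rw [Nat.card_Icc]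
    omega

/-- the points of a family, summed over the larger coordinate -/
theorem fam (K V : ℕ) (hV : 1 ≤ V) (F : Finset (ℕ × ℕ))
    (h1 : ∀ p ∈ F, V < p.1 ∧ p.1 ≤ 2 * V ^ 2)
    (h2 : ∀ p ∈ F, ∀ q ∈ F, p.1 = q.1 → p.2 ≤ q.2 → (q.2 - p.2) * p.1 ^ 2 ≤ K * V ^ 3) :
    F.card ≤ (K + 2) * V ^ 2 := by
  classical
  have hmap : ∀ p ∈ F, p.1 ∈ Ioc V (2 * V ^ 2) := fun p hp => mem_Ioc.2 (h1 p hp)
  rw [card_eq_sum_card_fiberwise hmap]
  have hV0 : (0 : ℝ) < V := by exact_mod_cast hV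
  have hfib : ∀ a ∈ Ioc V (2 * V ^ 2), ((F.filter fun p => p.1 = a).card : ℝ) ≤
      K * (V : ℝ) ^ 3 * ((a : ℝ) ^ 2)⁻¹ + 1 := by
    intro a ha
    have ha0 : 0 < a := by
      have := (mem_Ioc.1 ha).1
      omega
    have h3 : (F.filter fun p => p.1 = a).card ≤ K * V ^ 3 / a ^ 2 + 1 := by
      have h4 : (F.filter fun p => p.1 = a).card =
          ((F.filter fun p => p.1 = a).image Prod.snd).card := by
        rw [card_image_of_injOn]
        intro p hp q hq hpq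
        have e1 := (mem_filter.1 (mem_coe.1 hp)).2
        have e2 := (mem_filter.1 (mem_coe.1 hq)).2
        exact Prod.ext (e1.trans e2.symm) hpq
      rw [h4]
      apply card_diam
      intro x hx y hy hxy
      rw [mem_image] at hx hy
      obtain ⟨p, hp, rfl⟩ := hx
      obtain ⟨q, hq, rfl⟩ := hy
      rw [mem_filter] at hp hq
      have h5 := h2 p hp.1 q hq.1 (hp.2.trans hq.2.symm) hxy
      rw [hp.2] at h5
      exact (Nat.le_div_iff_mul_le (by positivity)).2 h5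
    have h6 : ((K * V ^ 3 / a ^ 2 : ℕ) : ℝ) ≤ K * (V : ℝ) ^ 3 * ((a : ℝ) ^ 2)⁻¹ := by
      have := @Nat.cast_div_le ℝ _ _ _ (K * V ^ 3) (a ^ 2)
      push_cast at this
      rwa [div_eq_mul_inv] at this
    have h7 : ((F.filter fun p => p.1 = a).card : ℝ) ≤ ((K * V ^ 3 / a ^ 2 : ℕ) : ℝ) + 1 := by
      exact_mod_cast h3
    linarith
  have hle : V ≤ 2 * V ^ 2 := by nlinarith
  have hsum : (∑ a ∈ Ioc V (2 * V ^ 2), ((F.filter fun p => p.1 = a).card : ℝ)) ≤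
      ((K + 2) * V ^ 2 : ℝ) := by
    refine (sum_le_sum hfib).trans ?_
    rw [sum_add_distrib, ← mul_sum, sum_const, nsmul_eq_mul, mul_one, Nat.card_Ioc]
    have h8 := sum_Ioc_inv_sq_le_sub (α := ℝ) (k := V) (n := 2 * V ^ 2) (by omega) hle
    have h9 : (0 : ℝ) ≤ (((2 * V ^ 2 : ℕ) : ℝ))⁻¹ := by positivity
    have h10 : ∑ a ∈ Ioc V (2 * V ^ 2), ((a : ℝ) ^ 2)⁻¹ ≤ (V : ℝ)⁻¹ := by linarith
    have h11 : K * (V : ℝ) ^ 3 * ∑ a ∈ Ioc V (2 * V ^ 2), ((a : ℝ) ^ 2)⁻¹ ≤ K * (V : ℝ) ^ 2 := by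
      calc K * (V : ℝ) ^ 3 * ∑ a ∈ Ioc V (2 * V ^ 2), ((a : ℝ) ^ 2)⁻¹
          ≤ K * (V : ℝ) ^ 3 * (V : ℝ)⁻¹ := mul_le_mul_of_nonneg_left h10 (by positivity)
        _ = K * (V : ℝ) ^ 2 := by field_simp
    have h12 : ((2 * V ^ 2 - V : ℕ) : ℝ) ≤ 2 * (V : ℝ) ^ 2 := by
      have : 2 * V ^ 2 - V ≤ 2 * V ^ 2 := Nat.sub_le _ _
      exact_mod_cast this
    linarith
  exact_mod_cast hsum

/-! ### the form -/

theorem D8_eq (A B : ℤ) : D8 (A, B) = -(16 * A ^ 4 * B ^ 4 * (A - B) ^ 4 *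
    ((A + B) ^ 4 * (A ^ 2 + B ^ 2) ^ 2 * (A ^ 2 + 2 * A * B - B ^ 2)) *
      (A ^ 2 - 2 * A * B - B ^ 2)) := by
  unfold D8 M8 N8
  ring

theorem D8_sq (s t : ℤ × ℤ) (h : (s.1 ^ 2 = t.1 ^ 2 ∧ s.2 ^ 2 = t.2 ^ 2) ∨
    (s.1 ^ 2 = t.2 ^ 2 ∧ s.2 ^ 2 = t.1 ^ 2)) : D8 s = D8 t := by
  have key : ∀ u : ℤ × ℤ, D8 u = -(16 * (u.1 ^ 2) ^ 2 * (u.2 ^ 2) ^ 2 * (u.1 ^ 2 - u.2 ^ 2) ^ 4 *
      (u.1 ^ 2 + u.2 ^ 2) ^ 2 *
        ((u.1 ^ 2) ^ 2 - 6 * (u.1 ^ 2) * (u.2 ^ 2) + (u.2 ^ 2) ^ 2)) := by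
    intro u
    unfold D8 M8 N8
    ring
  rw [key s, key t]
  rcases h with ⟨h1, h2⟩ | ⟨h1, h2⟩
  · rw [h1, h2]
  · rw [h1, h2]
    ring

/-- lower bound -/
theorem low (A B : ℤ) (hB : 0 < B) (hBA : B < A) :
    16 * A ^ 14 * B ^ 4 * (A - B) ^ 4 * |A ^ 2 - 2 * A * B - B ^ 2| ≤ |D8 (A, B)| := by
  have hA : 0 < A := by omega
  have hd : 0 < A - B := by omega
  have hAB : 0 < A * B := mul_pos hA hB
  have hBB : B ^ 2 ≤ A * B := by nlinarith
  have e1 : A ^ 4 ≤ (A + B) ^ 4 := pow_le_pow_left₀ hA.le (by omega) 4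
  have e2 : (A ^ 2) ^ 2 ≤ (A ^ 2 + B ^ 2) ^ 2 :=
    pow_le_pow_left₀ (by positivity) (by nlinarith [sq_nonneg B]) 2
  have e3 : A ^ 2 ≤ A ^ 2 + 2 * A * B - B ^ 2 := by nlinarith
  have h0 : (0 : ℤ) ≤ A ^ 2 + 2 * A * B - B ^ 2 := le_trans (by positivity) e3
  have h1 : A ^ 4 * (A ^ 2) ^ 2 * A ^ 2 ≤
      (A + B) ^ 4 * (A ^ 2 + B ^ 2) ^ 2 * (A ^ 2 + 2 * A * B - B ^ 2) := by
    apply mul_le_mul (mul_le_mul e1 e2 (by positivity) (by positivity)) e3 (by positivity)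
    positivity
  rw [D8_eq, abs_neg, abs_mul, abs_of_nonneg (a := 16 * A ^ 4 * B ^ 4 * (A - B) ^ 4 *
    ((A + B) ^ 4 * (A ^ 2 + B ^ 2) ^ 2 * (A ^ 2 + 2 * A * B - B ^ 2)))]
  · apply mul_le_mul_of_nonneg_right _ (abs_nonneg _)
    calc 16 * A ^ 14 * B ^ 4 * (A - B) ^ 4 =
        16 * A ^ 4 * B ^ 4 * (A - B) ^ 4 * (A ^ 4 * (A ^ 2) ^ 2 * A ^ 2) := by ring
      _ ≤ _ := mul_le_mul_of_nonneg_left h1 (by positivity)
  · positivity

/-- one of the three factors is small -/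
theorem tri (A B : ℤ) (hB : 0 < B) (hBA : B < A) :
    A ^ 20 * B ^ 4 ≤ |D8 (A, B)| ∨ A ^ 20 * (A - B) ^ 4 ≤ |D8 (A, B)| ∨
      A ^ 22 * |A ^ 2 - 2 * A * B - B ^ 2| ≤ 1526 * |D8 (A, B)| := by
  have hA : 0 < A := by omega
  have hd : 0 < A - B := by omega
  have hl := low A B hB hBA
  set P := |D8 (A, B)| with hP
  rcases le_or_gt (5 * B) A with h1 | h1
  · left
    have c1 : 256 * A ^ 4 ≤ 625 * (A - B) ^ 4 := by
      have : (4 * A) ^ 4 ≤ (5 * (A - B)) ^ 4 := pow_le_pow_left₀ (by omega) (by omega) 4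
      rw [mul_pow, mul_pow] at this
      norm_num at this
      exact this
    have c2 : 14 * A ^ 2 ≤ 25 * |A ^ 2 - 2 * A * B - B ^ 2| := by
      have := le_abs_self (A ^ 2 - 2 * A * B - B ^ 2)
      nlinarith
    have c3 : (256 * A ^ 4) * (14 * A ^ 2) ≤
        (625 * (A - B) ^ 4) * (25 * |A ^ 2 - 2 * A * B - B ^ 2|) :=
      mul_le_mul c1 c2 (by positivity) (by positivity)
    have c4 := mul_le_mul_of_nonneg_left c3 (show (0 : ℤ) ≤ 16 * A ^ 14 * B ^ 4 by positivity)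
    have c5 : 15625 * (16 * A ^ 14 * B ^ 4 * (A - B) ^ 4 * |A ^ 2 - 2 * A * B - B ^ 2|) ≤
        15625 * P := mul_le_mul_of_nonneg_left hl (by norm_num)
    have c6 : (0 : ℤ) ≤ A ^ 20 * B ^ 4 := by positivity
    have c7 : 16 * A ^ 14 * B ^ 4 * (256 * A ^ 4 * (14 * A ^ 2)) = 57344 * (A ^ 20 * B ^ 4) := by
      ring
    have c8 : 16 * A ^ 14 * B ^ 4 * (625 * (A - B) ^ 4 * (25 * |A ^ 2 - 2 * A * B - B ^ 2|)) =
        15625 * (16 * A ^ 14 * B ^ 4 * (A - B) ^ 4 * |A ^ 2 - 2 * A * B - B ^ 2|) := by ring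
    rw [c7, c8] at c4
    linarith
  · rcases le_or_gt (3 * A) (5 * B) with h2 | h2
    · right
      left
      have c1 : 81 * A ^ 4 ≤ 625 * B ^ 4 := by
        have : (3 * A) ^ 4 ≤ (5 * B) ^ 4 := pow_le_pow_left₀ (by omega) (by omega) 4
        rw [mul_pow, mul_pow] at this
        norm_num at this
        exact this
      have c2 : 14 * A ^ 2 ≤ 25 * |A ^ 2 - 2 * A * B - B ^ 2| := by
        have := neg_le_abs (A ^ 2 - 2 * A * B - B ^ 2)
        nlinarith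
      have c3 : (81 * A ^ 4) * (14 * A ^ 2) ≤
          (625 * B ^ 4) * (25 * |A ^ 2 - 2 * A * B - B ^ 2|) :=
        mul_le_mul c1 c2 (by positivity) (by positivity)
      have c4 := mul_le_mul_of_nonneg_left c3
        (show (0 : ℤ) ≤ 16 * A ^ 14 * (A - B) ^ 4 by positivity)
      have c5 : 15625 * (16 * A ^ 14 * B ^ 4 * (A - B) ^ 4 * |A ^ 2 - 2 * A * B - B ^ 2|) ≤
          15625 * P := mul_le_mul_of_nonneg_left hl (by norm_num)
      have c6 : (0 : ℤ) ≤ A ^ 20 * (A - B) ^ 4 := by positivity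
      have c7 : 16 * A ^ 14 * (A - B) ^ 4 * (81 * A ^ 4 * (14 * A ^ 2)) =
          18144 * (A ^ 20 * (A - B) ^ 4) := by ring
      have c8 : 16 * A ^ 14 * (A - B) ^ 4 * (625 * B ^ 4 * (25 * |A ^ 2 - 2 * A * B - B ^ 2|)) =
          15625 * (16 * A ^ 14 * B ^ 4 * (A - B) ^ 4 * |A ^ 2 - 2 * A * B - B ^ 2|) := by ring
      rw [c7, c8] at c4
      linarith
    · right
      right
      have c1 : A ^ 4 ≤ 625 * B ^ 4 := by
        have : A ^ 4 ≤ (5 * B) ^ 4 := pow_le_pow_left₀ (by omega) (by omega) 4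
        rw [mul_pow] at this
        norm_num at this
        exact this
      have c2 : 16 * A ^ 4 ≤ 625 * (A - B) ^ 4 := by
        have : (2 * A) ^ 4 ≤ (5 * (A - B)) ^ 4 := pow_le_pow_left₀ (by omega) (by omega) 4
        rw [mul_pow, mul_pow] at this
        norm_num at this
        exact this
      have c3 : A ^ 4 * (16 * A ^ 4) ≤ (625 * B ^ 4) * (625 * (A - B) ^ 4) :=
        mul_le_mul c1 c2 (by positivity) (by positivity)
      have c4 := mul_le_mul_of_nonneg_left c3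
        (show (0 : ℤ) ≤ 16 * A ^ 14 * |A ^ 2 - 2 * A * B - B ^ 2| by positivity)
      have c5 : 390625 * (16 * A ^ 14 * B ^ 4 * (A - B) ^ 4 * |A ^ 2 - 2 * A * B - B ^ 2|) ≤
          390625 * P := mul_le_mul_of_nonneg_left hl (by norm_num)
      have c6 : (0 : ℤ) ≤ P := abs_nonneg _
      have c7 : 16 * A ^ 14 * |A ^ 2 - 2 * A * B - B ^ 2| * (A ^ 4 * (16 * A ^ 4)) =
          256 * (A ^ 22 * |A ^ 2 - 2 * A * B - B ^ 2|) := by ring
      have c8 : 16 * A ^ 14 * |A ^ 2 - 2 * A * B - B ^ 2| * (625 * B ^ 4 * (625 * (A - B) ^ 4)) =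
          390625 * (16 * A ^ 14 * B ^ 4 * (A - B) ^ 4 * |A ^ 2 - 2 * A * B - B ^ 2|) := by ring
      rw [c7, c8] at c4
      linarith

/-- a fourth power -/
theorem four (A V x : ℕ) (hA : V < A) (h : A ^ 20 * x ^ 4 ≤ V ^ 24) : x * A ^ 2 ≤ V ^ 3 := by
  have h1 : (x * A ^ 2) ^ 4 * V ^ 12 ≤ (V ^ 3) ^ 4 * V ^ 12 := by
    calc (x * A ^ 2) ^ 4 * V ^ 12 ≤ (x * A ^ 2) ^ 4 * A ^ 12 :=
          Nat.mul_le_mul_left _ (Nat.pow_le_pow_left hA.le 12)
      _ = A ^ 20 * x ^ 4 := by ring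
      _ ≤ V ^ 24 := h
      _ = _ := by ring
  rcases Nat.eq_zero_or_pos V with rfl | hV
  · have h2 : A ^ 20 * x ^ 4 = 0 := by simpa using h
    have h3 : x = 0 := by
      rcases Nat.mul_eq_zero.1 h2 with h4 | h4
      · have := pow_eq_zero_iff (n := 20) (by norm_num) |>.1 h4
        omega
      · exact pow_eq_zero_iff (n := 4) (by norm_num) |>.1 h4
    rw [h3]
    simp
  · have h2 := Nat.le_of_mul_le_mul_right h1 (by positivity)
    exact (Nat.pow_le_pow_iff_left (by norm_num)).1 h2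

theorem two_pts (A V B B' : ℤ) (hV : 0 < V) (hA : V < A) (hB : 0 < B) (hBB : B ≤ B')
    (h : A ^ 22 * |A ^ 2 - 2 * A * B - B ^ 2| ≤ 1526 * V ^ 24)
    (h' : A ^ 22 * |A ^ 2 - 2 * A * B' - B' ^ 2| ≤ 1526 * V ^ 24) :
    (B' - B) * A ^ 2 ≤ 1526 * V ^ 3 := by
  have hA0 : 0 < A := by omega
  have h1 : 2 * ((B' - B) * A) ≤ |A ^ 2 - 2 * A * B - B ^ 2| +
      |A ^ 2 - 2 * A * B' - B' ^ 2| := by
    have e1 := le_abs_self (A ^ 2 - 2 * A * B - B ^ 2)
    have e2 := neg_le_abs (A ^ 2 - 2 * A * B' - B' ^ 2)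
    have e3 : 0 ≤ (B' - B) * (B + B') := mul_nonneg (by omega) (by omega)
    nlinarith
  have h2 := mul_le_mul_of_nonneg_left h1 (show (0 : ℤ) ≤ A ^ 22 by positivity)
  have h3 : A ^ 22 * ((B' - B) * A) ≤ 1526 * V ^ 24 := by
    have : A ^ 22 * (2 * ((B' - B) * A)) = 2 * (A ^ 22 * ((B' - B) * A)) := by ring
    rw [this, mul_add] at h2
    linarith
  have h4 : V ^ 21 ≤ A ^ 21 := pow_le_pow_left₀ hV.le hA.le 21
  have h5 : ((B' - B) * A ^ 2) * V ^ 21 ≤ (1526 * V ^ 3) * V ^ 21 := by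
    calc ((B' - B) * A ^ 2) * V ^ 21 ≤ ((B' - B) * A ^ 2) * A ^ 21 :=
          mul_le_mul_of_nonneg_left h4 (mul_nonneg (by omega) (by positivity))
      _ = A ^ 22 * ((B' - B) * A) := by ring
      _ ≤ 1526 * V ^ 24 := h3
      _ = _ := by ring
  exact le_of_mul_le_mul_right h5 (by positivity)

/-! ### the pairs -/

/-- the larger and the smaller absolute value -/
def mm (t : ℤ × ℤ) : ℕ × ℕ := (max t.1.natAbs t.2.natAbs, min t.1.natAbs t.2.natAbs)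

theorem mm_D8 (t : ℤ × ℤ) : D8 (((mm t).1 : ℤ), ((mm t).2 : ℤ)) = D8 t := by
  apply D8_sq
  unfold mm
  simp only
  rcases le_total t.1.natAbs t.2.natAbs with h | h
  · right
    rw [max_eq_right h, min_eq_left h, Int.natAbs_sq, Int.natAbs_sq]
    exact ⟨rfl, rfl⟩
  · left
    rw [max_eq_left h, min_eq_right h, Int.natAbs_sq, Int.natAbs_sq]
    exact ⟨rfl, rfl⟩

theorem mm_fiber (S : Finset (ℤ × ℤ)) (p : ℕ × ℕ) :
    (S.filter fun t => mm t = p).card ≤ 16 := by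
  classical
  set Q : Finset ℤ := {(p.1 : ℤ), -(p.1 : ℤ), (p.2 : ℤ), -(p.2 : ℤ)} with hQ
  have h1 : (S.filter fun t => mm t = p) ⊆ Q ×ˢ Q := by
    intro t ht
    have h2 := (mem_filter.1 ht).2
    have e1 := congrArg Prod.fst h2
    have e2 := congrArg Prod.snd h2
    unfold mm at e1 e2
    simp only at e1 e2
    rw [mem_product, hQ]
    simp only [mem_insert, mem_singleton]
    omega
  have hq : Q.card ≤ 4 := card_le_four
  refine (card_le_card h1).trans ?_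
  rw [card_product]
  nlinarith

theorem pairs (V : ℕ) (hV : 1 ≤ V) (T : Finset (ℕ × ℕ))
    (hT : ∀ p ∈ T, 0 < p.2 ∧ p.2 < p.1 ∧ D8 ((p.1 : ℤ), (p.2 : ℤ)) ≠ 0 ∧
      |D8 ((p.1 : ℤ), (p.2 : ℤ))| ≤ (V : ℤ) ^ 24) : T.card ≤ 1535 * V ^ 2 := by
  classical
  have hV3 : V ^ 3 ≤ V ^ 4 := Nat.pow_le_pow_right hV (by norm_num)
  have hsq : ∀ a : ℕ, a ^ 2 ≤ V ^ 3 → a ≤ 2 * V ^ 2 := by
    intro a ha
    have h1 : a ^ 2 ≤ (V ^ 2) ^ 2 := by
      calc a ^ 2 ≤ V ^ 4 := ha.trans hV3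
        _ = _ := by ring
    have h2 := (Nat.pow_le_pow_iff_left (by norm_num)).1 h1
    omega
  set T0 := T.filter fun p => p.1 ≤ V with hT0
  set T1 := T.filter fun p => V < p.1 ∧ p.1 ^ 20 * p.2 ^ 4 ≤ V ^ 24 with hT1
  set T2 := T.filter fun p => V < p.1 ∧ p.1 ^ 20 * (p.1 - p.2) ^ 4 ≤ V ^ 24 with hT2
  set T3 := T.filter fun p => V < p.1 ∧ (p.1 : ℤ) ^ 22 *
    |(p.1 : ℤ) ^ 2 - 2 * p.1 * p.2 - (p.2 : ℤ) ^ 2| ≤ 1526 * (V : ℤ) ^ 24 with hT3
  have hcov : T ⊆ T0 ∪ (T1 ∪ (T2 ∪ T3)) := by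
    intro p hp
    obtain ⟨a1, a2, a3, a4⟩ := hT p hp
    rw [mem_union, mem_union, mem_union, hT0, hT1, hT2, hT3, mem_filter, mem_filter, mem_filter,
      mem_filter]
    rcases le_or_gt p.1 V with h0 | h0
    · exact Or.inl ⟨hp, h0⟩
    · right
      rcases tri (p.1 : ℤ) (p.2 : ℤ) (by omega) (by omega) with h1 | h1 | h1
      · left
        have h2 := h1.trans a4
        exact ⟨hp, h0, by exact_mod_cast h2⟩
      · right
        left
        have h2 := h1.trans a4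
        have h3 : (((p.1 - p.2 : ℕ)) : ℤ) = (p.1 : ℤ) - p.2 := by
          rw [Nat.cast_sub a2.le]
        rw [← h3] at h2
        exact ⟨hp, h0, by exact_mod_cast h2⟩
      · right
        right
        exact ⟨hp, h0, h1.trans (mul_le_mul_of_nonneg_left a4 (by norm_num))⟩
  have c0 : T0.card ≤ V ^ 2 := by
    have h1 : T0 ⊆ Icc 1 V ×ˢ Icc 1 V := by
      intro p hp
      rw [hT0, mem_filter] at hp
      obtain ⟨a1, a2, a3, a4⟩ := hT p hp.1
      rw [mem_product, mem_Icc, mem_Icc]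
      have := hp.2
      omega
    refine (card_le_card h1).trans (le_of_eq ?_)
    rw [card_product, Nat.card_Icc, Nat.add_sub_cancel, sq]
  have c1 : T1.card ≤ (1 + 2) * V ^ 2 := by
    apply fam 1 V hV
    · intro p hp
      rw [hT1, mem_filter] at hp
      obtain ⟨a1, a2, a3, a4⟩ := hT p hp.1
      have h1 := four p.1 V p.2 hp.2.1 hp.2.2
      refine ⟨hp.2.1, hsq p.1 (le_trans ?_ h1)⟩
      exact Nat.le_mul_of_pos_left _ a1
    · intro p hp q hq e he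
      rw [hT1, mem_filter] at hp hq
      have h1 := four q.1 V q.2 hq.2.1 hq.2.2
      rw [one_mul, e]
      refine le_trans (Nat.mul_le_mul_right _ ?_) h1
      omega
  have c2 : T2.card ≤ (1 + 2) * V ^ 2 := by
    apply fam 1 V hV
    · intro p hp
      rw [hT2, mem_filter] at hp
      obtain ⟨a1, a2, a3, a4⟩ := hT p hp.1
      have h1 := four p.1 V (p.1 - p.2) hp.2.1 hp.2.2
      refine ⟨hp.2.1, hsq p.1 (le_trans ?_ h1)⟩
      exact Nat.le_mul_of_pos_left _ (by omega)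
    · intro p hp q hq e he
      rw [hT2, mem_filter] at hp hq
      obtain ⟨a1, a2, a3, a4⟩ := hT q hq.1
      have h1 := four p.1 V (p.1 - p.2) hp.2.1 hp.2.2
      rw [one_mul]
      refine le_trans (Nat.mul_le_mul_right _ ?_) h1
      omega
  have c3 : T3.card ≤ (1526 + 2) * V ^ 2 := by
    apply fam 1526 V hV
    · intro p hp
      rw [hT3, mem_filter] at hp
      obtain ⟨a1, a2, a3, a4⟩ := hT p hp.1
      refine ⟨hp.2.1, ?_⟩
      have hq : (1 : ℤ) ≤ |(p.1 : ℤ) ^ 2 - 2 * p.1 * p.2 - (p.2 : ℤ) ^ 2| := by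
        apply Int.one_le_abs
        intro h0
        apply a3
        rw [D8_eq, h0]
        ring
      have h1 : (p.1 : ℤ) ^ 22 ≤ 1526 * (V : ℤ) ^ 24 := by
        refine le_trans ?_ hp.2.2
        exact le_mul_of_one_le_right (by positivity) hq
      have h2 : p.1 ^ 22 ≤ 1526 * V ^ 24 := by exact_mod_cast h1
      have h3 : p.1 ^ 22 ≤ (2 * V ^ 2) ^ 22 := by
        calc p.1 ^ 22 ≤ 1526 * V ^ 24 := h2
          _ ≤ 2 ^ 22 * V ^ 44 :=
              Nat.mul_le_mul (by norm_num) (Nat.pow_le_pow_right hV (by norm_num))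
          _ = _ := by ring
      exact (Nat.pow_le_pow_iff_left (by norm_num)).1 h3
    · intro p hp q hq e he
      rw [hT3, mem_filter] at hp hq
      obtain ⟨a1, a2, a3, a4⟩ := hT p hp.1
      have h1 := hq.2.2
      rw [← e] at h1
      have h2 := two_pts (p.1 : ℤ) (V : ℤ) (p.2 : ℤ) (q.2 : ℤ) (by omega)
        (by exact_mod_cast hp.2.1) (by exact_mod_cast a1) (by exact_mod_cast he) hp.2.2 h1
      have h3 : (((q.2 - p.2 : ℕ)) : ℤ) = (q.2 : ℤ) - p.2 := by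
        rw [Nat.cast_sub he]
      rw [← h3] at h2
      exact_mod_cast h2
  calc T.card ≤ (T0 ∪ (T1 ∪ (T2 ∪ T3))).card := card_le_card hcov
    _ ≤ T0.card + (T1.card + (T2.card + T3.card)) := by
        refine (card_union_le _ _).trans (Nat.add_le_add_left ?_ _)
        refine (card_union_le _ _).trans (Nat.add_le_add_left ?_ _)
        exact card_union_le _ _
    _ ≤ _ := by omega

/-- **the number of the integer points** -/
theorem lc8 : S_LC8 := by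
  classical
  refine ⟨16 * 1535, ?_⟩
  intro V hV S hS
  have h1 : S.card ≤ 16 * (S.image mm).card := by
    apply card_le_mul_card_image
    intro p _
    exact mm_fiber S p
  have h2 : (S.image mm).card ≤ 1535 * V ^ 2 := by
    apply pairs V hV
    intro p hp
    rw [mem_image] at hp
    obtain ⟨t, ht, rfl⟩ := hp
    obtain ⟨b1, b2⟩ := hS t ht
    have e := mm_D8 t
    have hne : D8 (((mm t).1 : ℤ), ((mm t).2 : ℤ)) ≠ 0 := by rw [e]; exact b1
    have hle : (mm t).2 ≤ (mm t).1 := min_le_max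
    refine ⟨?_, ?_, hne, ?_⟩
    · rcases Nat.eq_zero_or_pos (mm t).2 with h0 | h0
      · exfalso
        apply hne
        rw [h0, D8_eq]
        simp
      · exact h0
    · rcases Nat.lt_or_ge (mm t).2 (mm t).1 with h0 | h0
      · exact h0
      · exfalso
        apply hne
        have h3 : (mm t).2 = (mm t).1 := le_antisymm hle h0
        rw [h3, D8_eq]
        simp
    · rw [e, Int.abs_eq_natAbs]
      exact_mod_cast b2
  calc S.card ≤ 16 * (S.image mm).card := h1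
    _ ≤ 16 * (1535 * V ^ 2) := Nat.mul_le_mul_left _ h2
    _ = _ := by ring

end Pool.Agent.Y37.Z8
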