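import Pool.Agent.W307.RT.Stm
import Pool.Agent.W586.RK.UB

/-!
# Project Z8 (helper723), job Z8-CHR, upper bounds

`∑_{z < p ≤ y} (κ | p) / p ≤ C` for `κ = -1, 2, -2`.  The proof is the one of
`Pool/Agent/W216/RT/UB4.lean` for a periodic completely multiplicative function.
-/

set_option autoImplicit false

namespace Pool.Agent.Y37.Z8.ChrU

open Finset Filter Topology
open Pool.Agent.W262.RK Pool.Agent.W586.RK.UB

theorem main {q : ℕ} (hq : 1 ≤ q) (fx : ℕ →*₀ ℝ) (fx_abs : ∀ n, |fx n| ≤ 1)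
    (fx_per : Function.Periodic fx q) (fx_sum : ∑ n ∈ range q, fx n = 0) :
    ∃ C : ℝ, ∀ y : ℕ, 3 ≤ y → ∑ p ∈ (Icc 1 y).filter Nat.Prime, fx p / (p : ℝ) ≤ C := by
  obtain ⟨C1, hC1⟩ := Pool.Agent.Helper256.KM.mertens_log
  obtain ⟨C2, hC2⟩ := Pool.Agent.Helper256.KM.mertens_inv
  have hC10 : 0 ≤ C1 := (abs_nonneg _).trans (hC1 1 le_rfl)
  set K : ℝ := Real.log (q : ℝ) + 2 with hK
  have hlog4 : 0 ≤ Real.log (q : ℝ) := Real.log_nonneg (by exact_mod_cast hq)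
  have hK0 : 0 < K := by linarith
  have hl3 : 1 ≤ Real.log 3 := by
    rw [Real.le_log_iff_exp_le (by norm_num)]
    linarith [Real.exp_one_lt_d9]
  refine ⟨Real.log 2 + Real.log K + C2 + 2 + 2 * C1, ?_⟩
  intro y hy3
  have hLy : 1 ≤ Real.log y :=
    hl3.trans (Real.log_le_log (by norm_num) (by exact_mod_cast hy3))
  set s : ℝ := 1 / Real.log y with hs
  have hLy0 : 0 < Real.log y := by linarith
  have hs0 : 0 < s := by positivity
  have hs1 : s ≤ 1 := by rw [hs, div_le_one hLy0]; exact hLy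
  set T : Finset Nat.Primes := Finset.subtype Nat.Prime (Icc 1 y) with hT
  have hconv : ∀ g : ℕ → ℝ, ∑ p ∈ T, g (p : ℕ) = ∑ p ∈ (Icc 1 y).filter Nat.Prime, g p := by
    intro g
    exact Finset.sum_subtype_eq_sum_filter (s := Icc 1 y) (p := Nat.Prime) g
  obtain ⟨hsum, hEL⟩ := euler_lower fx fx_abs s hs0 hs1 T
  have hLb := L_bound hq fx_abs fx_per fx_sum s hs0 hsum
  rw [← hK] at hLb
  have h2s : 2 / s = 2 * Real.log y := by
    rw [hs]; field_simp
  rw [h2s] at hEL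
  have h1 : ∑ p ∈ T, (1 + fx (p : ℕ)) * ((p : ℕ) : ℝ) ^ (-(1 + s)) ≤
      Real.log 2 + Real.log (Real.log y) + Real.log K := by
    have h2 := hEL.trans (mul_le_mul_of_nonneg_left hLb (by positivity))
    rw [← Real.log_mul (by positivity) (by linarith),
      ← Real.log_mul (by positivity) hK0.ne']
    rw [Real.le_log_iff_exp_le (by positivity)]
    exact h2
  have h3 : ∑ p ∈ T, (1 + fx (p : ℕ)) * ((p : ℕ) : ℝ) ^ (-(1 + s)) ≥
      ∑ p ∈ (Icc 1 y).filter Nat.Prime, ((1 : ℝ) / p + fx p / p - 2 * s * (Real.log p / p)) := by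
    rw [ge_iff_le, ← hconv (fun p => (1 : ℝ) / p + fx p / p - 2 * s * (Real.log p / p))]
    refine sum_le_sum fun p _ => ?_
    have hp1 : (1 : ℝ) < ((p : ℕ) : ℝ) := by exact_mod_cast p.2.one_lt
    have hp0 : (0 : ℝ) < ((p : ℕ) : ℝ) := by linarith
    have hlp : 0 < Real.log ((p : ℕ) : ℝ) := Real.log_pos hp1
    have h4 : ((p : ℕ) : ℝ) ^ (-(1 + s)) = ((p : ℕ) : ℝ) ^ (-s) / (p : ℕ) := by
      rw [show -(1 + s) = -s - 1 by ring, Real.rpow_sub hp0, Real.rpow_one]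
    have h5 : 1 - s * Real.log ((p : ℕ) : ℝ) ≤ ((p : ℕ) : ℝ) ^ (-s) := by
      rw [Real.rpow_def_of_pos hp0]
      have := Real.add_one_le_exp (Real.log ((p : ℕ) : ℝ) * -s)
      linarith
    have h6 := abs_le.1 (fx_abs p)
    have h7 : (1 + fx (p : ℕ)) * (1 - s * Real.log ((p : ℕ) : ℝ)) ≤
        (1 + fx (p : ℕ)) * ((p : ℕ) : ℝ) ^ (-s) := mul_le_mul_of_nonneg_left h5 (by linarith)
    have h8 : (1 + fx (p : ℕ)) * (s * Real.log ((p : ℕ) : ℝ)) ≤ 2 * (s * Real.log ((p : ℕ) : ℝ)) :=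
      mul_le_mul_of_nonneg_right (by linarith) (by positivity)
    have h9 : (1 + fx (p : ℕ) - 2 * (s * Real.log ((p : ℕ) : ℝ))) ≤
        (1 + fx (p : ℕ)) * ((p : ℕ) : ℝ) ^ (-s) := by linarith
    calc (1 : ℝ) / (p : ℕ) + fx p / (p : ℕ) - 2 * s * (Real.log (p : ℕ) / (p : ℕ))
        = (1 + fx (p : ℕ) - 2 * (s * Real.log ((p : ℕ) : ℝ))) / (p : ℕ) := by ring
      _ ≤ ((1 + fx (p : ℕ)) * ((p : ℕ) : ℝ) ^ (-s)) / (p : ℕ) :=
          div_le_div_of_nonneg_right h9 hp0.le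
      _ = _ := by rw [h4]; ring
  rw [sum_sub_distrib, sum_add_distrib, ← mul_sum] at h3
  have h10 := (abs_le.1 (hC2 y hy3)).1
  have h11 := (abs_le.1 (hC1 y (by omega))).2
  have h12 : 2 * s * ∑ p ∈ (Icc 1 y).filter Nat.Prime, Real.log p / p ≤ 2 + 2 * C1 := by
    have h13 : 2 * s * ∑ p ∈ (Icc 1 y).filter Nat.Prime, Real.log p / p ≤
        2 * s * (Real.log y + C1) := mul_le_mul_of_nonneg_left (by linarith) (by positivity)
    have h14 : 2 * s * (Real.log y + C1) = 2 + 2 * (s * C1) := by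
      rw [hs]; field_simp
    have h15 : s * C1 ≤ 1 * C1 := mul_le_mul_of_nonneg_right hs1 hC10
    linarith
  linarith

theorem ubf {q : ℕ} (hq : 1 ≤ q) (fx : ℕ →*₀ ℝ) (fx_abs : ∀ n, |fx n| ≤ 1)
    (fx_per : Function.Periodic fx q) (fx_sum : ∑ n ∈ range q, fx n = 0) (z : ℕ) :
    ∃ C : ℝ, ∀ y : ℕ, z < y → ∑ p ∈ PS z y, fx p / (p : ℝ) ≤ C := by
  obtain ⟨C, hC⟩ := main hq fx fx_abs fx_per fx_sum
  refine ⟨|C| + z + 3, ?_⟩
  intro y hzy
  have hb : ∀ p : ℕ, 1 ≤ p → |fx p / (p : ℝ)| ≤ 1 := by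
    intro p hp
    have hp0 : (1 : ℝ) ≤ p := by exact_mod_cast hp
    rw [abs_div, abs_of_pos (by linarith : (0 : ℝ) < p), div_le_one (by linarith)]
    exact (fx_abs p).trans hp0
  rcases Nat.lt_or_ge y 3 with hy | hy
  · have h1 : ∑ p ∈ PS z y, fx p / (p : ℝ) ≤ ∑ p ∈ PS z y, (1 : ℝ) := by
      apply sum_le_sum
      intro p hp
      simp only [PS, mem_filter, mem_Ioc] at hp
      exact (abs_le.1 (hb p (by omega))).2
    have h2 : (PS z y).card ≤ y := by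
      unfold PS
      refine (card_filter_le _ _).trans ?_
      simp
    have h3 : ((PS z y).card : ℝ) ≤ 2 := by
      have : (PS z y).card ≤ 2 := by omega
      exact_mod_cast this
    simp only [sum_const, nsmul_eq_mul, mul_one] at h1
    have := abs_nonneg C
    have : (0 : ℝ) ≤ z := Nat.cast_nonneg z
    linarith
  · have hmain := hC y hy
    have hsplit : ∑ p ∈ (Icc 1 y).filter Nat.Prime, fx p / (p : ℝ) =
        ∑ p ∈ (Icc 1 z).filter Nat.Prime, fx p / (p : ℝ) + ∑ p ∈ PS z y, fx p / (p : ℝ) := by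
      rw [← sum_union]
      · refine sum_congr ?_ fun _ _ => rfl
        ext p
        simp only [PS, mem_union, mem_filter, mem_Icc, mem_Ioc]
        constructor
        · rintro ⟨⟨h1, h2⟩, h3⟩
          rcases Nat.lt_or_ge z p with h4 | h4
          · right; exact ⟨⟨h4, h2⟩, h3⟩
          · left; exact ⟨⟨h1, h4⟩, h3⟩
        · rintro (⟨⟨h1, h2⟩, h3⟩ | ⟨⟨h1, h2⟩, h3⟩)
          · exact ⟨⟨h1, by omega⟩, h3⟩
          · exact ⟨⟨by omega, h2⟩, h3⟩
      · rw [Finset.disjoint_left]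
        intro p h1 h2
        simp only [PS, mem_filter, mem_Icc, mem_Ioc] at h1 h2
        omega
    have hsmall : -(z : ℝ) ≤ ∑ p ∈ (Icc 1 z).filter Nat.Prime, fx p / (p : ℝ) := by
      have h16 : ∀ p ∈ (Icc 1 z).filter Nat.Prime, (-1 : ℝ) ≤ fx p / (p : ℝ) := by
        intro p hp
        rw [mem_filter, mem_Icc] at hp
        exact (abs_le.1 (hb p hp.1.1)).1
      have h17 := Finset.card_nsmul_le_sum _ _ _ h16
      have h18 : ((Icc 1 z).filter Nat.Prime).card ≤ z := by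
        refine (card_filter_le _ _).trans ?_
        simp
      have h19 : (((Icc 1 z).filter Nat.Prime).card : ℝ) ≤ z := by exact_mod_cast h18
      rw [nsmul_eq_mul] at h17
      linarith
    have := le_abs_self C
    linarith

/-- the character as a real function -/
noncomputable def chi {q : ℕ} (χ : MulChar (ZMod q) ℤ) (h0 : χ ((0 : ℕ) : ZMod q) = 0) : ℕ →*₀ ℝ where
  toFun n := ((χ (n : ZMod q) : ℤ) : ℝ)
  map_zero' := by rw [h0]; simp
  map_one' := by simp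
  map_mul' m n := by rw [Nat.cast_mul, map_mul, Int.cast_mul]

/-- the bound for a quadratic character -/
theorem ubc {q : ℕ} (hq : 1 ≤ q) (χ : MulChar (ZMod q) ℤ) (h0 : χ ((0 : ℕ) : ZMod q) = 0)
    (h1 : ∀ a : ZMod q, |χ a| ≤ 1) (hs : ∑ n ∈ range q, χ (n : ZMod q) = 0)
    (κ : ℤ) (hκ : ∀ p : ℕ, p.Prime → p ≠ 2 → jacobiSym κ p = χ (p : ZMod q)) (z : ℕ) :
    ∃ C : ℝ, ∀ y : ℕ, z < y → ∑ p ∈ PS z y, Jr κ p / (p : ℝ) ≤ C := by
  obtain ⟨C, hC⟩ := ubf hq (chi χ h0) (fun n => by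
      show |((χ (n : ZMod q) : ℤ) : ℝ)| ≤ 1
      exact_mod_cast h1 _) (fun n => by
      show ((χ ((n + q : ℕ) : ZMod q) : ℤ) : ℝ) = ((χ (n : ZMod q) : ℤ) : ℝ)
      simp) (by
      have : ∑ n ∈ range q, (chi χ h0) n = ((∑ n ∈ range q, χ (n : ZMod q) : ℤ) : ℝ) := by
        push_cast
        rfl
      rw [this, hs]
      simp) z
  refine ⟨C + 2, ?_⟩
  intro y hy
  have h2 : ∀ p ∈ PS z y, Jr κ p / (p : ℝ) ≤ chi χ h0 p / (p : ℝ) + if p = 2 then 2 else 0 := by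
    intro p hp
    have hpp : p.Prime := (mem_filter.1 hp).2
    by_cases hp2 : p = 2
    · rw [if_pos hp2, hp2]
      have e1 : Jr κ 2 ≤ 1 := by
        unfold Jr
        have h5 := jacobiSym.trichotomy κ 2
        rcases h5 with h5 | h5 | h5 <;> rw [h5] <;> norm_num
      have e2 : -1 ≤ chi χ h0 2 := by
        show -1 ≤ ((χ ((2 : ℕ) : ZMod q) : ℤ) : ℝ)
        exact_mod_cast (abs_le.1 (h1 ((2 : ℕ) : ZMod q))).1
      push_cast
      linarith
    · rw [if_neg hp2, add_zero]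
      have e3 : Jr κ p = chi χ h0 p := by
        unfold Jr
        rw [hκ p hpp hp2]
        rfl
      rw [e3]
  refine (sum_le_sum h2).trans ?_
  rw [sum_add_distrib]
  have h3 : ∑ p ∈ PS z y, (if p = 2 then (2 : ℝ) else 0) ≤ 2 := by
    rw [sum_ite_eq' (PS z y) 2 (fun _ => (2 : ℝ))]
    split_ifs <;> norm_num
  have h4 := hC y hy
  linarith

/-- **upper bounds for the sums over the primes of the real characters modulo 8** -/
theorem chrU : ∀ κ : ℤ, (κ = -1 ∨ κ = 2 ∨ κ = -2) → ∀ z : ℕ, ∃ C : ℝ, ∀ y : ℕ, z < y →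
    ∑ p ∈ PS z y, Jr κ p / (p : ℝ) ≤ C := by
  have hodd : ∀ p : ℕ, p.Prime → p ≠ 2 → Odd p := fun p hp h2 => hp.odd_of_ne_two h2
  rintro κ (rfl | rfl | rfl) z
  · exact ubc (q := 4) (by norm_num) ZMod.χ₄ (by decide) (by decide) (by decide) _
      (fun p hp h2 => jacobiSym.at_neg_one (hodd p hp h2)) z
  · exact ubc (q := 8) (by norm_num) ZMod.χ₈ (by decide) (by decide) (by decide) _
      (fun p hp h2 => jacobiSym.at_two (hodd p hp h2)) z
  · exact ubc (q := 8) (by norm_num) ZMod.χ₈' (by decide) (by decide) (by decide) _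
      (fun p hp h2 => jacobiSym.at_neg_two (hodd p hp h2)) z

end Pool.Agent.Y37.Z8.ChrU
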